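import Mathlib
import Pool.Agent.TH170.QD.Use
import Pool.Agent.TH170.TT.FinTate

/-!
# The Tate conjecture over finitely generated fields for all products of powers of the abelian
varieties of almost all CM types of arbitrary CM fields

Let `E` be a CM field of degree `2 g`; nothing is assumed about its Galois group. The automorphisms
of `ℂ` act on the set of the `2 g` complex embeddings of `E` through a finite group `G` (the Galois
group of the normal closure), and so on the space `V`, of dimension `g`, of the rational functions
on this set that change their sign under complex conjugation. There are `2 ^ g` CM types of `E`.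
Let `E i` be finitely many CM fields, of degrees `2 g i`, that are pairwise independent: for `i ≠ k`
and all complex embeddings `φ` of `E i` and `ψ` of `E k` some automorphism of `ℂ` is the identity on
`φ (E i)` and the complex conjugation on `ψ (E k)` (this is no condition for one field). There are
`2 ^ (∑ i, g i)` families `Φ` of CM types `Φ i` of the fields `E i`.

Let `A` be an abelian variety over a finitely generated field of characteristic zero which is, over
a finite extension, isogenous to a product `X = ∏ j, A (t j)` of copies of the abelian varieties
`A i` of CM type `(E i, Φ i)`, which are defined over number fields. Let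
`V_ℓ(A) = ℚ_ℓ ⊗ H_1(X, ℚ)` be the rational Tate module, with the action `ρ` of the Galois group and
the cyclotomic character `χ`, and let `γ` be the Frobenius element of one place of good reduction of
a number field above a prime number `p ≠ ℓ` that splits completely in the fields `E i`, extended to
the finitely generated field. It acts by the multiplication by an element `π` of `∏ j, E (t j)` with
absolute values given by the theorem of Shimura and Taniyama (`IsFrobeniusAt`).

The same for finite fields: let `A₀` be an ordinary abelian variety over the field with `q = p ^ a`
elements with the canonical lift `X`, up to isogeny (`IsCanonicalLift`); so the Frobenius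
endomorphism acts on `V_ℓ(A₀)` by the multiplication by `π ∈ ∏ j, E (t j)` with slopes one on the
CM types and zero outside of them (`TateOrdinary`).

We call the family `Φ` exceptional if for some such `A` or `A₀` and some `m` there is a Tate class
in `H^{2m}(A, ℚ_ℓ(m))`, fixed by a subgroup of finite index of the Galois group, which is not a
linear combination, with coefficients in `ℚ_ℓ`, of products of `m` Hodge classes of degree two on
`X` (classes of divisors, by the theorem of Lefschetz). So the Tate conjecture holds, in all
codimensions, for all these `A` and `A₀` if `Φ` is not exceptional.

The theorem bounds the number of the exceptional families: it is at most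
`2 ^ (∑ i, g i) * ∑ i, ρ (E i)`, where `ρ (E)` (`rho g φ₀`) is the sum of the numbers `w (W)`
(`weight g φ₀ W`) over the isotypic components `W` of `V` (`components E`):

* `w (W) = 0` if every minimal Galois-stable space in `W` contains a function with integral values
  whose sum over a CM type is odd;
* otherwise `w (W) = (2 d / (π g)) ^ (d / 2)` if `W` is itself a minimal space, of dimension `d`;
* otherwise `w (W)` is the smaller of `(53 λ d / g) ^ (c / 2)` (if
  `(10 ^ 4 + 10 λ) ^ 2 λ d ≤ 2 g`; replaced by `1` if not) and
  `8 (2 d / (π g)) ^ (d / 2) (10 ^ 4 + 10 λ + 6 √(d g)) ^ (d - c)`. Here `λ = log |G|`,
  `d = dim S` for the minimal spaces `S` in `W`, and `c = e + d - h`, where `e` is the dimension of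
  the space of the equivariant endomorphisms of `S` and `h` the dimension of the space of the
  functions in `S` that are invariant under the stabilizer of a complex embedding.

(If `S` is over `ℂ` the sum of `r` conjugate representations of degree `n` with the Schur index `m`,
which occur in `V` with the multiplicity `μ`, then `d = m r n`, `h = m r μ`, `e = m ^ 2 r`, and
`c = m r (n - μ + m)` is the codimension of the set of the degenerate elements. If `E` is normal
over `ℚ` then `μ = n` and `c = e = m ^ 2 r`.)

Let `Q` be the number of the imaginary quadratic subfields of `E` and `N d` the number of the
components `W` that are minimal spaces of dimension `d`. The second part (`RhoEstimate`) is the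
estimate `ρ (E) ≤ Q / √g + 2 (N 2 + 1) / g + 3 N 3 / g ^ (3 / 2) + ∑ w (W)`, where the last sum is
over the components `W` which are not minimal, and the term `Q / √g` is omitted if `g` is odd. The
third part (`NoMultipleComponents`) says that there are no such components if `E` is abelian over
`ℚ`, or if any two complex embeddings of `E` are exchanged by some automorphism of `ℂ` (for instance
`E = k F` for an imaginary quadratic field `k` and a totally real field `F` with this property, such
as the fields of degree `binomial (n, m)` which belong to the sets with `m` elements of roots of a
polynomial of degree `n` with real roots and Galois group `S_n`). Always `N 3 ≤ g / 3`; if `E` is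
cyclic over `ℚ` then `g` is odd or `Q = 0`, and `N 2 ≤ 2`, `N 3 = 0`, `ρ (E) ≤ 6 / g`.

The proof: the sign function of a degenerate CM type is orthogonal to a minimal Galois-stable space.
The number of the sign functions orthogonal to one space is estimated by a Fourier integral and the
inequality of Hölder. There are in general infinitely many minimal spaces isomorphic to `S`, but
modulo a prime number `p` that does not divide `|G|` there are only about `p ^ (h - e)` of them.
-/

namespace Pool.Agent.Results.MP_7b53ad_ag.AlmostAllCMTypes

open NumberField Module Pool.Agent.H204R3.CM Pool.Agent.H977R3.CM Pool.Agent.TH170.CM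
  Pool.Agent.TH170.MF Pool.Agent.TH170.QD Pool.Agent.TH170.TT

/-- The families of CM types `Φ i` of the fields `E i` such that for some product of powers of the
abelian varieties of CM type `(E i, Φ i)` over a finitely generated field, or for some ordinary
abelian variety over a finite field whose canonical lift is isogenous to such a product, some Tate
class is not a combination of products of divisor classes. -/
def exceptionalFamilies {ι : Type} (E : ι → Type) [∀ i, Field (E i)] [∀ i, NumberField (E i)]
    [∀ i, IsCMField (E i)] : Set (∀ i, Set (E i →+* ℂ)) :=
  {Φ | (∀ i, IsCMType (Φ i)) ∧ ¬ ((∀ k, TateUpTo Φ k) ∧ TateOrdinary Φ)}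

/-- **Tate classes on all products of powers of the abelian varieties of almost all CM types of CM
fields are generated by divisors.** -/
theorem result :
    (∀ {ι : Type} [Fintype ι] (E : ι → Type) [∀ i, Field (E i)] [∀ i, NumberField (E i)]
      [∀ i, IsCMField (E i)] (g : ι → ℕ) (φ₀ : ∀ i, E i →+* ℂ), PairwiseIndep E →
      (∀ i, finrank ℚ (E i) = 2 * g i) →
      ((exceptionalFamilies E).ncard : ℝ) ≤ 2 ^ (∑ i, g i) * ∑ i, rho (g i) (φ₀ i)) ∧
    RhoEstimate ∧ NoMultipleComponents := by
  refine ⟨fun E _ _ _ g φ₀ hE hg => ncard_families_le E hg φ₀ (fun Φ => (∀ k, TateUpTo Φ k) ∧
    TateOrdinary Φ) ?_,
    rho_bounds⟩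
  intro Φ hΦ hnd
  exact ⟨fun k => tateUpTo_of_levelFree (levelFree_of_not_degenerate hΦ hE hnd k),
    tateOrdinary_of_levelFree fun k => levelFree_of_not_degenerate hΦ hE hnd k⟩

end Pool.Agent.Results.MP_7b53ad_ag.AlmostAllCMTypes
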